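import Pool.Agent.Results.MP_eba1ef_gt.LowDimensionalExceptions
import Pool.Agent.Y368.Faces
import Pool.Agent.H73R3.Hull
set_option autoImplicit false

/-!
# Intersections of cylinders
-/

open Set Module
open scoped Pointwise RealInnerProductSpace

namespace Pool.Agent.X160.Cy

open Pool.Agent.H985.Sep (polar)

/-- The Euclidean space `ℝ^d`. -/
abbrev E (d : ℕ) : Type := EuclideanSpace ℝ (Fin d)

variable {d m : ℕ}

theorem zero_mem_polar (C : Set (E d)) (o : E d) : (0 : E d) ∈ polar C o := by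
  intro y _
  rw [inner_zero_left]
  exact zero_le_one

theorem polar_anti {C C' : Set (E d)} (h : C ⊆ C') (o : E d) : polar C' o ⊆ polar C o :=
  fun _ hv y hy => hv y (h hy)

/-- The bipolar theorem for closed convex sets. -/
theorem bipolar {C : Set (E d)} (hC : Convex ℝ C) (hCc : IsClosed C) {o : E d} (ho : o ∈ C)
    (w : E d) (hw : ∀ z ∈ polar C o, ⟪w, z⟫ ≤ 1) : o + w ∈ C := by
  by_contra hcon
  obtain ⟨g, c, hg1, hg2⟩ := geometric_hahn_banach_closed_point hC hCc hcon
  let n : E d := (InnerProductSpace.toDual ℝ (E d)).symm g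
  have hn : ∀ x, g x = ⟪n, x⟫ := fun x => (InnerProductSpace.toDual_symm_apply).symm
  have ho' : g o < c := hg1 o ho
  have hc0 : 0 < c - g o := by linarith
  have hmem : (c - g o)⁻¹ • n ∈ polar C o := by
    intro y hy
    have h1 := hg1 y hy
    rw [real_inner_smul_left, inner_sub_right, ← hn, ← hn, inv_mul_le_iff₀ hc0]
    linarith
  have h2 := hw _ hmem
  rw [real_inner_smul_right, inv_mul_le_iff₀ hc0, real_inner_comm, ← hn, mul_one] at h2
  rw [map_add] at hg2
  linarith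

/-- The polar body of an intersection. -/
theorem polar_inter (hm : 0 < m) {K : Set (E d)} {o : E d} (ho : o ∈ interior K)
    (C : Fin m → Set (E d)) (hC : ∀ i, Convex ℝ (C i) ∧ IsClosed (C i)) (hK : K = ⋂ i, C i) :
    polar K o = convexHull ℝ (⋃ i, polar (C i) o) := by
  have hKC : ∀ i, K ⊆ C i := fun i => by rw [hK]; exact iInter_subset _ _
  have hoi : ∀ i, o ∈ interior (C i) := fun i => interior_mono (hKC i) ho
  apply subset_antisymm
  · intro v hv
    by_contra hcon
    have hcomp : IsCompact (⋃ i, polar (C i) o) :=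
      isCompact_iUnion fun i => Pool.Agent.H985.Sep.isCompact_polar (hoi i)
    have hcl : IsClosed (convexHull ℝ (⋃ i, polar (C i) o)) := (Pool.Agent.H73R3.compact_hull hcomp).isClosed
    obtain ⟨g, c, hg1, hg2⟩ := geometric_hahn_banach_closed_point (convex_convexHull ℝ _) hcl hcon
    let n : E d := (InnerProductSpace.toDual ℝ (E d)).symm g
    have hn : ∀ x, g x = ⟪n, x⟫ := fun x => (InnerProductSpace.toDual_symm_apply).symm
    have hc0 : 0 < c := by
      have h0 : (0 : E d) ∈ convexHull ℝ (⋃ i, polar (C i) o) :=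
        subset_convexHull ℝ _ (mem_iUnion.2 ⟨⟨0, hm⟩, zero_mem_polar _ _⟩)
      have := hg1 0 h0
      rwa [map_zero] at this
    have hmem : o + c⁻¹ • n ∈ K := by
      rw [hK]
      refine mem_iInter.2 fun i => bipolar (hC i).1 (hC i).2 (interior_subset (hoi i)) _ ?_
      intro z hz
      have h1 := hg1 z (subset_convexHull ℝ _ (mem_iUnion.2 ⟨i, hz⟩))
      rw [real_inner_smul_left, ← hn, inv_mul_le_iff₀ hc0]
      linarith
    have h2 := hv _ hmem
    rw [add_sub_cancel_left, real_inner_smul_right, real_inner_comm, ← hn,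
      inv_mul_le_iff₀ hc0] at h2
    linarith
  · refine convexHull_min (iUnion_subset fun i => polar_anti (hKC i) o) ?_
    exact Pool.Agent.H985.Sep.convex_polar K o

/-- The hyperplanes `{x | ⟪h.1, x⟫ = h.2}`, `h ∈ H`, separate the faces of `K` from `o`. -/
def Separates (H : Finset (E d × ℝ)) (K : Set (E d)) (o : E d) : Prop :=
  (∀ h ∈ H, h.1 ≠ 0) ∧
    ∀ u x₀ : E d, u ≠ 0 → x₀ ∈ K → (∀ y ∈ K, ⟪u, y⟫ ≤ ⟪u, x₀⟫) →
      ∃ h ∈ H, ⟪h.1, o⟫ < h.2 ∧ ∀ x ∈ K, ⟪u, x⟫ = ⟪u, x₀⟫ → h.2 < ⟪h.1, x⟫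

/-- Every face is at positive distance from the interior point. -/
theorem face_pos {K : Set (E d)} {o : E d} (ho : o ∈ interior K) {u x₀ : E d} (hu : u ≠ 0)
    (h : ∀ y ∈ K, ⟪u, y⟫ ≤ ⟪u, x₀⟫) : 0 < ⟪u, x₀ - o⟫ := by
  rw [mem_interior_iff_mem_nhds, Metric.mem_nhds_iff] at ho
  obtain ⟨r, hr, hball⟩ := ho
  have hun : 0 < ‖u‖ := norm_pos_iff.2 hu
  have h1 : o + (r / (2 * ‖u‖)) • u ∈ K := by
    apply hball
    rw [Metric.mem_ball, dist_eq_norm, add_sub_cancel_left, norm_smul, Real.norm_of_nonneg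
      (by positivity)]
    have : r / (2 * ‖u‖) * ‖u‖ = r / 2 := by field_simp
    rw [this]
    linarith
  have h2 := h _ h1
  rw [inner_add_right, real_inner_smul_right, real_inner_self_eq_norm_sq] at h2
  rw [inner_sub_right]
  have : 0 < r / (2 * ‖u‖) * ‖u‖ ^ 2 := by positivity
  linarith

/-- **Subadditivity.** -/
theorem separates_inter (hm : 0 < m) {K : Set (E d)} {o : E d}
    (ho : o ∈ interior K) (C : Fin m → Set (E d)) (hC : ∀ i, Convex ℝ (C i) ∧ IsClosed (C i))
    (hK : K = ⋂ i, C i) (H : Fin m → Finset (E d × ℝ)) (hH : ∀ i, Separates (H i) (C i) o) :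
    ∃ H' : Finset (E d × ℝ), H'.card ≤ ∑ i, (H i).card ∧ Separates H' K o := by
  classical
  refine ⟨Finset.univ.biUnion H, Finset.card_biUnion_le, ?_, ?_⟩
  · intro h hh
    obtain ⟨i, -, hi⟩ := Finset.mem_biUnion.1 hh
    exact (hH i).1 h hi
  · intro u x₀ hu hx₀ hmax
    have hKC : ∀ i, K ⊆ C i := fun i => by rw [hK]; exact iInter_subset _ _
    have hpos := face_pos ho hu hmax
    set s : ℝ := ⟪u, x₀ - o⟫ with hs
    have hv : s⁻¹ • u ∈ polar K o := by
      intro y hy
      rw [real_inner_smul_left, inv_mul_le_iff₀ hpos, mul_one, hs, inner_sub_right,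
        inner_sub_right]
      linarith [hmax y hy]
    rw [polar_inter hm ho C hC hK, convexHull_eq] at hv
    obtain ⟨κ, t, w, z, hw0, hw1, hz, hc⟩ := hv
    have hF : ∀ x ∈ K, ⟪u, x⟫ = ⟪u, x₀⟫ → ⟪s⁻¹ • u, x - o⟫ = 1 := by
      intro x hx hxu
      rw [real_inner_smul_left, inner_sub_right, hxu, ← inner_sub_right, ← hs,
        inv_mul_cancel₀ hpos.ne']
    have hzK : ∀ j ∈ t, ∀ x ∈ K, ⟪z j, x - o⟫ ≤ 1 := by
      intro j hj x hx
      obtain ⟨i, hi⟩ := mem_iUnion.1 (hz j hj)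
      exact hi x (hKC i hx)
    obtain ⟨j, hj, hwj⟩ : ∃ j ∈ t, 0 < w j := by
      by_contra hcon
      push Not at hcon
      have : ∑ j ∈ t, w j ≤ 0 := Finset.sum_nonpos hcon
      linarith
    have hzF : ∀ x ∈ K, ⟪u, x⟫ = ⟪u, x₀⟫ → ⟪z j, x - o⟫ = 1 := by
      intro x hx hxu
      have h1 := hF x hx hxu
      rw [← hc, Finset.centerMass_eq_of_sum_1 _ _ hw1, sum_inner] at h1
      have h2 : ∑ j ∈ t, w j * (1 - ⟪z j, x - o⟫) = 0 := by
        simp only [mul_sub, mul_one, Finset.sum_sub_distrib, hw1]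
        simp only [real_inner_smul_left] at h1
        linarith
      have h3 := (Finset.sum_eq_zero_iff_of_nonneg (fun j hj =>
        mul_nonneg (hw0 j hj) (by linarith [hzK j hj x hx]))).1 h2 j hj
      rcases mul_eq_zero.1 h3 with h4 | h4
      · linarith
      · linarith
    obtain ⟨i, hi⟩ := mem_iUnion.1 (hz j hj)
    have hz0 : z j ≠ 0 := by
      intro h0
      have := hzF x₀ hx₀ rfl
      rw [h0, inner_zero_left] at this
      exact zero_ne_one this
    obtain ⟨h, hh, h1, h2⟩ := (hH i).2 (z j) x₀ hz0 (hKC i hx₀) (by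
      intro y hy
      have h3 := hi y hy
      have h4 := hzF x₀ hx₀ rfl
      rw [inner_sub_right] at h3 h4
      linarith)
    refine ⟨h, Finset.mem_biUnion.2 ⟨i, Finset.mem_univ _, hh⟩, h1, fun x hx hxu => ?_⟩
    refine h2 x (hKC i hx) ?_
    have h3 := hzF x hx hxu
    have h4 := hzF x₀ hx₀ rfl
    rw [inner_sub_right] at h3 h4
    linarith

end Pool.Agent.X160.Cy
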