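import Pool.Agent.X160.Cy.Base
import Pool.Agent.Y512.Main13
set_option autoImplicit false

/-!
# Cylinders
-/

open Set Module
open scoped Pointwise RealInnerProductSpace
open Pool.Agent.H985.Sep (polar)

namespace Pool.Agent.X160.Cy

variable {d m : ℕ}

/-- `b(k) = 2^k` for `k ≤ 2`, `b(3) = 13`, `b(k) = 3 · 2^k · k · log (2 k² + 2 k + 1)`, `k ≥ 4`. -/
noncomputable def b (k : ℕ) : ℝ :=
  if k ≤ 2 then 2 ^ k else if k = 3 then 13 else
    3 * 2 ^ k * (k * Real.log (2 * k ^ 2 + 2 * k + 1))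

theorem log_ge_one {k : ℕ} (hk : 4 ≤ k) : 1 ≤ Real.log (2 * (k : ℝ) ^ 2 + 2 * k + 1) := by
  have hk' : (4 : ℝ) ≤ k := by exact_mod_cast hk
  rw [Real.le_log_iff_exp_le (by positivity)]
  have := Real.exp_one_lt_d9
  nlinarith

theorem b_mono : Monotone b := by
  intro i j hij
  unfold b
  by_cases hj : j ≤ 2
  · rw [if_pos hj, if_pos (hij.trans hj)]
    exact pow_le_pow_right₀ (by norm_num) hij
  · rw [if_neg hj]
    by_cases hj3 : j = 3
    · rw [if_pos hj3]
      by_cases hi : i ≤ 2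
      · rw [if_pos hi]
        calc (2 : ℝ) ^ i ≤ 2 ^ 2 := pow_le_pow_right₀ (by norm_num) hi
          _ ≤ 13 := by norm_num
      · rw [if_neg hi, if_pos (by omega)]
    · rw [if_neg hj3]
      have hj4 : 4 ≤ j := by omega
      have hj4' : (4 : ℝ) ≤ j := by exact_mod_cast hj4
      have hlog := log_ge_one hj4
      have hbig : (13 : ℝ) ≤ 3 * 2 ^ j * (j * Real.log (2 * j ^ 2 + 2 * j + 1)) := by
        have h1 : (2 : ℝ) ^ 4 ≤ 2 ^ j := pow_le_pow_right₀ (by norm_num) hj4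
        have h2 : (4 : ℝ) * 1 ≤ j * Real.log (2 * j ^ 2 + 2 * j + 1) := by gcongr
        calc (13 : ℝ) ≤ 3 * 2 ^ 4 * (4 * 1) := by norm_num
          _ ≤ 3 * 2 ^ j * (j * Real.log (2 * j ^ 2 + 2 * j + 1)) := by gcongr
      by_cases hi : i ≤ 2
      · rw [if_pos hi]
        refine le_trans ?_ hbig
        calc (2 : ℝ) ^ i ≤ 2 ^ 2 := pow_le_pow_right₀ (by norm_num) hi
          _ ≤ 13 := by norm_num
      · rw [if_neg hi]
        by_cases hi3 : i = 3
        · rw [if_pos hi3]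
          exact hbig
        · rw [if_neg hi3]
          have hij' : (i : ℝ) ≤ j := by exact_mod_cast hij
          have hi4 := log_ge_one (by omega : 4 ≤ i)
          gcongr
          norm_num

open Pool.Agent.H843R3.Had2 Pool.Agent.W677.Shadow Pool.Agent.W677.Summand in
theorem cov_b {k : ℕ} {L : Set (Eu k)} (hL : Bdy L) : ∃ N : ℕ, (N : ℝ) ≤ b k ∧ Cov L N := by
  by_cases hk : k = 3
  · subst hk
    obtain ⟨T, hT, hcov⟩ := Pool.Agent.Y512.covN13 L hL.1 hL.2.1 hL.2.2
    refine ⟨13, ?_, T, hT, hcov⟩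
    unfold b
    norm_num
  · obtain ⟨N, h1, h2⟩ := Pool.Agent.X163.Hull.cov_bnd hL
    refine ⟨N, ?_, h2⟩
    unfold Pool.Agent.X163.Hull.bnd at h1
    unfold b
    by_cases h : k ≤ 2
    · rw [if_pos h] at h1 ⊢
      exact h1
    · rw [if_neg h] at h1 ⊢
      rw [if_neg hk]
      exact h1

/-- The set `V` of directions illuminates `A` in `K`. -/
def Illum (V : Finset (E d)) (A K : Set (E d)) : Prop :=
  ∀ x ∈ A, ∃ v ∈ V, ∃ t : ℝ, 0 < t ∧ x + t • v ∈ interior K

open Pool.Agent.H843R3.Had2 Pool.Agent.W677.Shadow Pool.Agent.W677.Summand in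
theorem dirs {K A : Set (E d)} (hK : Convex ℝ K) (hKi : (interior K).Nonempty)
    (hA : Convex ℝ A) (hAc : IsCompact A) (hne : A.Nonempty) (hAK : A ⊆ K) {k : ℕ}
    (hk : finrank ℝ (vectorSpan ℝ A) ≤ k) :
    ∃ V : Finset (E d), (V.card : ℝ) ≤ b k ∧ Illum V A K := by
  obtain ⟨a₀, ha₀⟩ := hne
  obtain ⟨ι, hι⟩ := coords (vectorSpan ℝ A) (k := finrank ℝ (vectorSpan ℝ A)) rfl
  have hL : Bdy (Lset ι A a₀) :=
    ⟨Lset_convex hA, Lset_compact (fun x hx => (hι x).1 hx) ha₀ hAc, Lset_int hι ha₀ hA⟩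
  obtain ⟨N, hN, hcov⟩ := cov_b hL
  obtain ⟨V, hV, h⟩ := Pool.Agent.X163.Hull.illum_sub hK hKi hι ha₀ hA hAc hAK N hcov
  exact ⟨V, le_trans (le_trans (by exact_mod_cast hV) hN) (b_mono hk), h⟩

/-- `C` is a closed convex set which is invariant under the translations of a subspace of
codimension at most `k`, i.e. a cylinder with a base of dimension at most `k`; the cylinders of
type `0` are the closed half-spaces. -/
def Cylinder (k : ℕ) (C : Set (E d)) : Prop :=
  (k = 0 ∧ ∃ (a : E d) (t : ℝ), C = {y | ⟪a, y⟫ ≤ t}) ∨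
    (Convex ℝ C ∧ IsClosed C ∧ ∃ Λ : Submodule ℝ (E d), d ≤ finrank ℝ Λ + k ∧
      ∀ x ∈ C, ∀ v ∈ Λ, x + v ∈ C)

theorem Cylinder.closed {k : ℕ} {C : Set (E d)} (h : Cylinder k C) :
    Convex ℝ C ∧ IsClosed C := by
  rcases h with ⟨-, a, t, rfl⟩ | h
  · refine ⟨?_, isClosed_le (by fun_prop) continuous_const⟩
    exact convex_halfSpace_le (f := fun y => ⟪a, y⟫) ⟨fun x y => inner_add_right _ _ _,
      fun c x => by rw [real_inner_smul_right, smul_eq_mul]⟩ t
  · exact ⟨h.1, h.2.1⟩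

theorem polar_perp {C : Set (E d)} {o : E d} (ho : o ∈ C) {Λ : Submodule ℝ (E d)}
    (h : ∀ x ∈ C, ∀ v ∈ Λ, x + v ∈ C) : polar C o ⊆ (Λᗮ : Submodule ℝ (E d)) := by
  intro w hw
  rw [SetLike.mem_coe, Submodule.mem_orthogonal]
  intro v hv
  by_contra hne
  have h1 := hw _ (h o ho ((2 / ⟪v, w⟫) • v) (Λ.smul_mem _ hv))
  rw [add_sub_cancel_left, real_inner_smul_right, real_inner_comm v w, div_mul_cancel₀ _ hne] at h1
  norm_num at h1

theorem illum_cyl {K C : Set (E d)} {o : E d} {k : ℕ} (hKc : IsCompact K) (ho : o ∈ interior K)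
    (hKC : K ⊆ C) (hC : Cylinder k C) :
    ∃ V : Finset (E d), (V.card : ℝ) ≤ b k ∧ Illum V (polar C o) (polar K o) := by
  have hoC : o ∈ interior C := interior_mono hKC ho
  have h0 : (0 : E d) ∈ interior (polar K o) := Pool.Agent.Y368.zero_mem_interior_polar hKc ho
  rcases hC with ⟨rfl, a, t, rfl⟩ | ⟨h1, h2, Λ, h3, h4⟩
  · refine ⟨{-a}, ?_, ?_⟩
    · rw [Finset.card_singleton]
      unfold b
      norm_num
    · intro x hx
      refine ⟨-a, Finset.mem_singleton_self _, ?_⟩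
      have hxa : x ∈ ℝ ∙ a := by
        have h5 := polar_perp (interior_subset hoC) (Λ := (ℝ ∙ a)ᗮ) (by
          intro y hy v hv
          show ⟪a, y + v⟫ ≤ t
          rw [inner_add_right, (Submodule.mem_orthogonal_singleton_iff_inner_right.1 hv), add_zero]
          exact hy) hx
        rwa [SetLike.mem_coe, Submodule.orthogonal_orthogonal] at h5
      obtain ⟨s, rfl⟩ := Submodule.mem_span_singleton.1 hxa
      have hcase : s • a = 0 ∨ 0 < s := by
        by_contra hcon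
        push Not at hcon
        obtain ⟨h5, h6⟩ := hcon
        have hs : s < 0 := lt_of_le_of_ne h6 (fun h => h5 (by rw [h, zero_smul]))
        have ha : a ≠ 0 := fun h => h5 (by rw [h, smul_zero])
        have hn : 0 < ‖a‖ ^ 2 := by
          have := norm_pos_iff.2 ha
          positivity
        have h7 := hx (o + (2 / (s * ‖a‖ ^ 2)) • a) (by
          show ⟪a, o + (2 / (s * ‖a‖ ^ 2)) • a⟫ ≤ t
          rw [inner_add_right, real_inner_smul_right, real_inner_self_eq_norm_sq]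
          have h8 : o ∈ {y | ⟪a, y⟫ ≤ t} := interior_subset hoC
          have h8' : ⟪a, o⟫ ≤ t := h8
          have h9 : 2 / (s * ‖a‖ ^ 2) * ‖a‖ ^ 2 ≤ 0 := by
            have : 2 / (s * ‖a‖ ^ 2) ≤ 0 :=
              div_nonpos_of_nonneg_of_nonpos (by norm_num)
                (mul_nonpos_of_nonpos_of_nonneg hs.le hn.le)
            exact mul_nonpos_of_nonpos_of_nonneg this hn.le
          linarith)
        rw [add_sub_cancel_left, real_inner_smul_left, real_inner_smul_right,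
          real_inner_self_eq_norm_sq] at h7
        have h10 : s * (2 / (s * ‖a‖ ^ 2) * ‖a‖ ^ 2) = 2 := by
          have hs' : s ≠ 0 := hs.ne
          field_simp
        rw [h10] at h7
        norm_num at h7
      rcases hcase with h5 | h5
      · rw [h5]
        have hcont : Filter.Tendsto (fun r : ℝ => (0 : E d) + r • (-a)) (nhds 0) (nhds 0) := by
          have : Continuous (fun r : ℝ => (0 : E d) + r • (-a)) := by fun_prop
          have h6 := this.tendsto 0
          simpa using h6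
        have hev := hcont.eventually (isOpen_interior.mem_nhds h0)
        obtain ⟨ε, hε, hball⟩ := Metric.eventually_nhds_iff.1 hev
        refine ⟨ε / 2, by positivity, hball ?_⟩
        rw [Real.dist_eq, sub_zero, abs_of_pos (by positivity)]
        linarith
      · refine ⟨s, h5, ?_⟩
        rw [smul_neg, add_neg_cancel]
        exact h0
  · refine dirs (Pool.Agent.H985.Sep.convex_polar K o) ⟨0, h0⟩
      (Pool.Agent.H985.Sep.convex_polar C o) (Pool.Agent.H985.Sep.isCompact_polar hoC)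
      ⟨0, zero_mem_polar _ _⟩ (polar_anti hKC o) ?_
    have hsub : vectorSpan ℝ (polar C o) ≤ Λᗮ := by
      rw [vectorSpan_def, Submodule.span_le]
      rintro _ ⟨x, hx, y, hy, rfl⟩
      exact Submodule.sub_mem _ (polar_perp (interior_subset hoC) h4 hx)
        (polar_perp (interior_subset hoC) h4 hy)
    have h5 := Submodule.finrank_mono hsub
    have h6 := Submodule.finrank_add_finrank_orthogonal Λ
    rw [finrank_euclideanSpace_fin] at h6
    omega

/-- The faces of `K` whose hyperplanes cut all the sets `C i` have dimension less than `k`. -/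
def SmallFaces (K : Set (E d)) (o : E d) (k : ℕ) (C : Fin m → Set (E d)) : Prop :=
  ∀ v ∈ extremePoints ℝ (polar K o), (∀ i, ∃ y ∈ C i, 1 < ⟪v, y - o⟫) →
    finrank ℝ (vectorSpan ℝ {y ∈ K | ⟪v, y - o⟫ = 1}) < k

/-- `K` is a convex body and `o` an interior point. -/
def IsPair (K : Set (E d)) (o : E d) : Prop :=
  Convex ℝ K ∧ IsCompact K ∧ o ∈ interior K

theorem body {K : Set (E d)} {o : E d} (h : IsPair K o) :
    Pool.Agent.TH84.HC.IsBody (polar K o) :=
  ⟨Pool.Agent.H985.Sep.convex_polar K o, Pool.Agent.H985.Sep.isCompact_polar h.2.2,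
    Pool.Agent.H985.Sep.interior_polar_nonempty h.2.1 h.2.2⟩

/-- From illumination to separation. -/
theorem combine (hd : 1 ≤ d) {K : Set (E d)} {o : E d} (hK : IsPair K o) (C : Fin m → Set (E d))
    (k : Fin m → ℕ) (hC : ∀ i, Cylinder (k i) (C i)) (hKC : ∀ i, K ⊆ C i) (U : Finset (E d))
    (hU : ∀ x ∈ extremePoints ℝ (polar K o), (∀ i, x ∉ polar (C i) o) →
      ∃ v ∈ U, ∃ t : ℝ, 0 < t ∧ x + t • v ∈ interior (polar K o)) :
    ∃ H : Finset (E d × ℝ), Separates H K o ∧ (H.card : ℝ) ≤ ∑ i, b (k i) + U.card := by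
  choose V hV1 hV2 using fun i => illum_cyl hK.2.1 hK.2.2 (hKC i) (hC i)
  obtain ⟨T, hT, hcov⟩ := Pool.Agent.Results.MP_eba1ef_gt.LowDimensionalExceptions.cover hd
    (body hK) U (fun i => polar (C i) o) V hV2 hU
  obtain ⟨H, h1, h2, h3⟩ := Pool.Agent.H985.Sep.separate hK.2.2 T hcov
  refine ⟨H, ⟨h2, h3⟩, ?_⟩
  have h4 : (H.card : ℝ) ≤ T.card := by exact_mod_cast h1
  refine h4.trans (hT.trans ?_)
  have := Finset.sum_le_sum fun i (_ : i ∈ (Finset.univ : Finset (Fin m))) => hV1 i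
  linarith

theorem pos_of_compact (hd : 1 ≤ d) {K : Set (E d)} (hK : IsCompact K) (C : Fin m → Set (E d))
    (h : K = ⋂ i, C i) : 0 < m := by
  by_contra hcon
  have hm : m = 0 := by omega
  subst hm
  have h1 : K = univ := by rw [h]; simp
  rw [h1] at hK
  have h5 : Nontrivial (E d) := by
    refine ⟨⟨EuclideanSpace.single ⟨0, hd⟩ 1, 0, fun h6 => ?_⟩⟩
    have := congrArg (fun z : E d => z ⟨0, hd⟩) h6
    simp at this
  exact (noncompact_univ (E d)) hK

/-- Intersections of cylinders. -/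
theorem inter_cyl (hd : 1 ≤ d) {K : Set (E d)} {o : E d} (hK : IsPair K o)
    (C : Fin m → Set (E d)) (k : Fin m → ℕ) (hC : ∀ i, Cylinder (k i) (C i))
    (h : K = ⋂ i, C i) :
    ∃ H : Finset (E d × ℝ), Separates H K o ∧ (H.card : ℝ) ≤ ∑ i, b (k i) := by
  have hm := pos_of_compact hd hK.2.1 C h
  have hKC : ∀ i, K ⊆ C i := fun i => by rw [h]; exact iInter_subset _ _
  obtain ⟨H, h1, h2⟩ := combine hd hK C k hC hKC ∅ (by
    intro x hx hxC
    exfalso
    rw [polar_inter hm hK.2.2 C (fun i => (hC i).closed) h] at hx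
    obtain ⟨i, hi⟩ := mem_iUnion.1 (extremePoints_convexHull_subset hx)
    exact hxC i hi)
  refine ⟨H, h1, ?_⟩
  rwa [Finset.card_empty, Nat.cast_zero, add_zero] at h2

/-- The exceptional faces are carried by the cylinders. -/
theorem small_of {K : Set (E d)} {o : E d} (hK : IsPair K o) {k : ℕ} {C : Fin m → Set (E d)}
    (h : SmallFaces K o k C) : ∀ x ∈ extremePoints ℝ (polar K o), (∀ i, x ∉ polar (C i) o) →
      Pool.Agent.TH84.NC.NormalDim (polar K o) k x := by
  intro x hx hxC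
  refine Pool.Agent.Y368.normalDim_polar hK.1 hK.2.1 hK.2.2 k x (h x hx fun i => ?_)
  have h1 := hxC i
  unfold polar at h1
  rw [mem_ofPred_eq] at h1
  push Not at h1
  exact h1

theorem with_small (hd : 1 ≤ d) {K : Set (E d)} {o : E d} (hK : IsPair K o) {l : ℕ}
    (C : Fin m → Set (E d)) (k : Fin m → ℕ) (hC : ∀ i, Cylinder (k i) (C i)) (hKC : ∀ i, K ⊆ C i)
    (hS : SmallFaces K o l C) {B : ℝ} (hB : ∃ U : Finset (E d), (U.card : ℝ) ≤ B ∧
      ∀ x ∈ polar K o, Pool.Agent.TH84.NC.NormalDim (polar K o) l x →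
        ∃ v ∈ U, ∃ t : ℝ, 0 < t ∧ x + t • v ∈ interior (polar K o)) :
    ∃ H : Finset (E d × ℝ), Separates H K o ∧ (H.card : ℝ) ≤ ∑ i, b (k i) + B := by
  obtain ⟨U, hU1, hU2⟩ := hB
  obtain ⟨H, h1, h2⟩ := combine hd hK C k hC hKC U
    (fun x hx hxC => hU2 x hx.1 (small_of hK hS x hx hxC))
  exact ⟨H, h1, h2.trans (by linarith)⟩

/-- The bounds. -/
theorem bounds (hd : 1 ≤ d) {K : Set (E d)} {o : E d} (hK : IsPair K o) {l : ℕ}
    (C : Fin m → Set (E d)) (k : Fin m → ℕ) (hC : ∀ i, Cylinder (k i) (C i)) (hKC : ∀ i, K ⊆ C i)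
    (hS : SmallFaces K o l C) :
    (∀ τ : ℝ, 0 < τ → τ < 1 → ∃ H : Finset (E d × ℝ), Separates H K o ∧
      (H.card : ℝ) ≤ ∑ i, b (k i) + (1 + 4 * (d * (d + 1)) * Real.log (20 * d ^ 6 + 1) *
        (((2 - τ) / τ) ^ l / (1 - τ) ^ d))) ∧
    (1024 ≤ d → 5 * l ≤ d → ∑ i, b (k i) ≤ (1 - 1 / (d : ℝ)) * 2 ^ d →
      ∃ H : Finset (E d × ℝ), Separates H K o ∧ H.card < 2 ^ d) ∧
    ((∀ y ∈ K, o - (y - o) ∈ K) → 2 ≤ d → 2 * l ≤ d →
      8 * (d * Real.log d) ≤ (d - 2 * l : ℝ) ^ 2 → ∑ i, b (k i) ≤ (1 - 4 / (d : ℝ)) * 2 ^ d →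
      ∃ H : Finset (E d × ℝ), Separates H K o ∧ H.card < 2 ^ d) := by
  have hb := body hK
  refine ⟨fun τ h0 h1 => with_small hd hK C k hC hKC hS
    (Pool.Agent.TH84.NC.illum_pairs d l hd _ hb τ h0 h1), fun hd' hl hsum => ?_,
    fun hsym hd' hl h8 hsum => ?_⟩
  · obtain ⟨H, h1, h2⟩ := with_small hd hK C k hC hKC hS
      (Pool.Agent.TH84.NC.illum_pairs d l hd _ hb (9 / 50) (by norm_num) (by norm_num))
    have hnum := Pool.Agent.TH84.NC.pairs_num hd' hl
    refine ⟨H, h1, ?_⟩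
    have : (H.card : ℝ) < 2 ^ d := by linarith
    exact_mod_cast this
  · have hsym' : ∀ v ∈ polar K o, -v ∈ polar K o := by
      intro v hv y hy
      have h := hv _ (hsym y hy)
      rw [sub_sub_cancel_left, inner_neg_right] at h
      rw [inner_neg_left]
      exact h
    obtain ⟨hlt, hnum⟩ := Pool.Agent.TH84.NC.strict_num hd' hl h8
    obtain ⟨θ, h0, h1, hθ⟩ := Pool.Agent.TH84.NC.rate_exp (by omega : 1 ≤ d) hlt
    obtain ⟨H, h2, h3⟩ := with_small hd hK C k hC hKC hS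
      (Pool.Agent.TH84.NC.illum_sym d l hd _ hb hsym' θ h0 h1)
    refine ⟨H, h2, ?_⟩
    have hlogn : 0 ≤ Real.log (10 * (d:ℝ) ^ 5 + 1) := by
      apply Real.log_nonneg
      have : 0 ≤ 10 * (d:ℝ) ^ 5 := by positivity
      linarith
    have h4 := mul_le_mul_of_nonneg_left hθ
      (show 0 ≤ (d * ((d:ℝ) + 1)) * Real.log (10 * d ^ 5 + 1) by positivity)
    have : (H.card : ℝ) < 2 ^ d := by linarith
    exact_mod_cast this

/-- The intersection of a body with small faces and cylinders. -/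
theorem small_inter {K S : Set (E d)} {o : E d} (hK : IsPair K o) {l : ℕ}
    (C : Fin m → Set (E d)) (hC : ∀ i, Convex ℝ (C i) ∧ IsClosed (C i)) (hS : IsPair S o)
    (hSf : ∀ v ∈ extremePoints ℝ (polar S o),
      finrank ℝ (vectorSpan ℝ {y ∈ S | ⟪v, y - o⟫ = 1}) < l)
    (h : K = S ∩ ⋂ i, C i) : SmallFaces K o l C := by
  intro v hv hvC
  set C' : Fin (m + 1) → Set (E d) := Fin.cons S C with hC'
  have hK' : K = ⋂ i, C' i := by
    rw [h]
    ext x
    simp only [mem_inter_iff, mem_iInter]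
    constructor
    · rintro ⟨h1, h2⟩ i
      refine Fin.cases ?_ (fun j => ?_) i
      · simpa [hC'] using h1
      · simpa [hC'] using h2 j
    · intro h1
      exact ⟨by simpa [hC'] using h1 0, fun j => by simpa [hC'] using h1 j.succ⟩
  have hcl : ∀ i, Convex ℝ (C' i) ∧ IsClosed (C' i) := by
    intro i
    refine Fin.cases ?_ (fun j => ?_) i
    · simpa [hC'] using ⟨hS.1, hS.2.1.isClosed⟩
    · simpa [hC'] using hC j
  have hp := polar_inter (Nat.succ_pos m) hK.2.2 C' hcl hK'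
  have hv2 := hv
  rw [hp] at hv2
  obtain ⟨i, hi⟩ := mem_iUnion.1 (extremePoints_convexHull_subset hv2)
  have hKS : K ⊆ S := by rw [h]; exact inter_subset_left
  have hvS : v ∈ polar S o := by
    revert hi
    refine Fin.cases ?_ (fun j => ?_) i
    · intro hi
      simpa [hC'] using hi
    · intro hi
      have hi' : v ∈ polar (C j) o := by simpa [hC'] using hi
      obtain ⟨y, hy, hy1⟩ := hvC j
      exact absurd (hi' y hy) (not_le.2 hy1)
  have hve : v ∈ extremePoints ℝ (polar S o) :=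
    inter_extremePoints_subset_extremePoints_of_subset (polar_anti hKS o) ⟨hvS, hv⟩
  refine lt_of_le_of_lt (Submodule.finrank_mono ?_) (hSf v hve)
  apply vectorSpan_mono
  rintro y ⟨hy1, hy2⟩
  exact ⟨hKS hy1, hy2⟩

end Pool.Agent.X160.Cy
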